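import Pool.Agent.H.MP_f85f12_al.D

set_option autoImplicit false

namespace Pool.Agent.Results.MP_f85f12_al.Yes

open CategoryTheory Pretriangulated Pool.Agent.H.MP_f85f12_al

variable (C : Type 1) [Category.{1} C] [Preadditive C] [Limits.HasZeroObject C] [HasShift C ℤ]
  [∀ n : ℤ, (shiftFunctor C n).Additive] [Pretriangulated C]

/-- `C` is triangulated and has a lax stability condition, for a surjective `v : K(C) → ℤ ^ 3`,
with a slice in which all nonzero objects are massive and the Jordan–Hölder property fails. -/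
def Cex : Prop := IsTriangulated C ∧
  ∃ (v : K0 C →+ (Fin 3 → ℤ)) (P : ℝ → ObjectProperty C) (Z : (Fin 3 → ℤ) →+ ℂ) (φ : ℝ),
    Function.Surjective v ∧ IsLax v P Z ∧
    (∀ c : C, P φ c → ¬ Limits.IsZero c → 0 < ‖Z (v (cl c))‖) ∧ ¬ JH (P φ).FullSubcategory

/-- This happens in the bounded derived category of the `A₃` quiver `• → • ← •` over any
field. -/
theorem result (k : Type) [Field k] : Cex (Db k) :=
  ⟨inferInstance, vv k, PP TT FF, ZZ, 1 / 2, vv_surj, lax, massive, not_JH⟩

end Pool.Agent.Results.MP_f85f12_al.Yes
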